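import Mathlib

/-!
# Explicit generators of the symmetric group without short relations: definitions

The points are those of the projective lines over the fields with `3`, `5`, `7`, … elements (the first
`r` odd primes) and `m + 2` further points. The points at infinity of the projective lines and the
further points are numbered by `0, …, r + m + 1`.
-/

open Equiv

namespace Pool.Agent.K6.H2.GR

/-- The odd primes `3, 5, 7, 11, …`. -/
noncomputable def pr (i : ℕ) : ℕ := Nat.nth Nat.Prime (i + 1)

lemma pr_prime (i : ℕ) : (pr i).Prime := Nat.prime_nth_prime _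

instance (i : ℕ) : Fact (pr i).Prime := ⟨pr_prime i⟩

instance (i : ℕ) : NeZero (pr i) := ⟨(pr_prime i).ne_zero⟩

/-- The points: the finite points `z` of the projective line over the field with `pr i` elements,
`i < r`, and the numbers `0, …, r + m + 1`; the number `i < r` is the point at infinity of the `i`-th
projective line. -/
abbrev Pt (r m : ℕ) : Type := (Σ i : Fin r, ZMod (pr i)) ⊕ Fin (r + m + 2)

/-- The involution `z ↦ 1 / z` of all projective lines. -/
noncomputable def Jf (r m : ℕ) : Pt r m → Pt r m
  | .inl ⟨i, z⟩ => if z = 0 then .inr ⟨i, by omega⟩ else .inl ⟨i, z⁻¹⟩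
  | .inr j => if h : (j : ℕ) < r then .inl ⟨⟨j, h⟩, 0⟩ else .inr j

lemma Jf_inv (r m : ℕ) : Function.Involutive (Jf r m) := by
  intro x
  rcases x with ⟨i, z⟩ | j
  · by_cases hz : z = 0
    · subst hz
      simp [Jf]
    · simp [Jf, hz]
  · by_cases h : (j : ℕ) < r
    · simp [Jf, h]
    · simp [Jf, h]

/-- The involution `z ↦ 1 / z` of all projective lines, as a permutation. -/
noncomputable def J (r m : ℕ) : Perm (Pt r m) := (Jf_inv r m).toPerm

/-- The permutation `z ↦ z + 2` of all projective lines. -/
noncomputable def A0 (r m : ℕ) : Perm (Pt r m) :=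
  Equiv.sumCongr (Equiv.sigmaCongrRight fun i : Fin r => Equiv.addRight (2 : ZMod (pr i)))
    (Equiv.refl _)

/-- The permutation `z ↦ z / (2 z + 1)` of all projective lines. -/
noncomputable def B0 (r m : ℕ) : Perm (Pt r m) := J r m * A0 r m * J r m

/-- The transposition of the last two points. -/
noncomputable def tau (r m : ℕ) : Perm (Pt r m) :=
  Equiv.swap (.inr ⟨r + m, by omega⟩) (.inr ⟨r + m + 1, by omega⟩)

/-- The first generator: `z ↦ z + 2` on the finite points of all projective lines, and the cycle
`j ↦ j + 1` of the numbers `0, …, r + m + 1`, which links the points at infinity. -/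
noncomputable def a (r m : ℕ) : Perm (Pt r m) :=
  Equiv.sumCongr (Equiv.sigmaCongrRight fun i : Fin r => Equiv.addRight (2 : ZMod (pr i)))
    (finRotate (r + m + 2))

/-- The second generator: `z ↦ z / (2 z + 1)` on all projective lines, and the transposition of the last
two points. -/
noncomputable def b (r m : ℕ) : Perm (Pt r m) := B0 r m * tau r m

/-- The letters `x` (`(false, true)`), `x⁻¹` (`(false, false)`), `y` (`(true, true)`), `y⁻¹`
(`(true, false)`). -/
abbrev Letter : Type := Bool × Bool

/-- The value of a letter. -/
def ev {G : Type*} [Group G] (x y : G) (s : Letter) : G :=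
  if s.1 then (if s.2 then y else y⁻¹) else (if s.2 then x else x⁻¹)

/-- The value of a word. -/
def evw {G : Type*} [Group G] (x y : G) (w : List Letter) : G := (w.map (ev x y)).prod

/-- No letter is next to its inverse. -/
def Reduced (w : List Letter) : Prop := w.IsChain fun s t => ¬ (s.1 = t.1 ∧ s.2 ≠ t.2)

/-- The matrices of the letters. -/
def mat (s : Letter) : Matrix (Fin 2) (Fin 2) ℤ :=
  if s.1 then (if s.2 then !![1, 0; 2, 1] else !![1, 0; -2, 1])
  else (if s.2 then !![1, 2; 0, 1] else !![1, -2; 0, 1])

/-- The matrix of a word. -/
def matw (w : List Letter) : Matrix (Fin 2) (Fin 2) ℤ := (w.map mat).prod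

/-- The Cayley graph of a group: `g` is joined to `g x` and `g x⁻¹`, `x ∈ X` (if these elements are
different from `g`). -/
def cay {G : Type*} [Group G] (X : Set G) : SimpleGraph G :=
  SimpleGraph.fromRel fun g h => ∃ x ∈ X, h = g * x

/-- The number of points of the first `r` projective lines. -/
noncomputable def blocks (r : ℕ) : ℕ := ∑ i ∈ Finset.range r, (pr i + 1)

/-- The number of projective lines for the group `Sym(n)`: the largest `r` for which there are at least
two points left. -/
noncomputable def rk (n : ℕ) : ℕ := Nat.findGreatest (fun r => blocks r + 2 ≤ n) n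

end Pool.Agent.K6.H2.GR
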