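import Mathlib
import Pool.Agent.K6.H2.GR.Defs

/-! # The number of points at which the linking of the projective lines is felt -/

open Equiv

namespace Pool.Agent.K6.H2.GR

/-- The point at infinity. -/
def infp (r m : ℕ) (i : Fin r) : Pt r m := .inr ⟨i, by omega⟩

/-- The point is on the `i`-th projective line. -/
def InB (r m : ℕ) (i : Fin r) (x : Pt r m) : Prop := x = infp r m i ∨ ∃ z, x = .inl ⟨i, z⟩

lemma A0_inB (r m : ℕ) (i : Fin r) (x : Pt r m) : InB r m i (A0 r m x) ↔ InB r m i x := by
  rcases x with ⟨j, z⟩ | j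
  · simp only [InB, A0, infp, Equiv.sumCongr_apply, Sum.map_inl, Equiv.sigmaCongrRight_apply,
      reduceCtorEq, false_or, Sum.inl.injEq]
    constructor
    · rintro ⟨y, hy⟩
      simp only [Sigma.mk.injEq] at hy
      obtain ⟨rfl, -⟩ := hy
      exact ⟨z, rfl⟩
    · rintro ⟨y, hy⟩
      simp only [Sigma.mk.injEq] at hy
      obtain ⟨rfl, -⟩ := hy
      exact ⟨_, rfl⟩
  · simp [InB, A0, infp]

lemma J_inB (r m : ℕ) (i : Fin r) (x : Pt r m) (h : InB r m i x) : InB r m i (J r m x) := by
  rcases h with h | ⟨z, h⟩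
  · subst h
    right
    refine ⟨0, ?_⟩
    simp [J, Jf, infp]
  · subst h
    by_cases hz : z = 0
    · left
      simp [J, Jf, infp, hz]
    · right
      refine ⟨z⁻¹, ?_⟩
      simp [J, Jf, hz]

lemma J_J (r m : ℕ) (x : Pt r m) : J r m (J r m x) = x := Jf_inv r m x

lemma B0_inB (r m : ℕ) (i : Fin r) (x : Pt r m) : InB r m i (B0 r m x) ↔ InB r m i x := by
  unfold B0
  rw [Perm.mul_apply, Perm.mul_apply]
  constructor
  · intro h
    have h1 := J_inB r m i _ h
    rw [J_J] at h1
    rw [A0_inB] at h1
    have h2 := J_inB r m i _ h1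
    rwa [J_J] at h2
  · intro h
    exact J_inB _ _ _ _ ((A0_inB r m i _).2 (J_inB _ _ _ _ h))

lemma ev_inB (r m : ℕ) (s : Letter) (i : Fin r) (x : Pt r m) (h : InB r m i x) :
    InB r m i (ev (A0 r m) (B0 r m) s x) := by
  rcases s with ⟨_ | _, _ | _⟩ <;> simp only [ev, Bool.false_eq_true, if_false, if_true]
  · rw [← A0_inB]
    simpa using h
  · exact (A0_inB _ _ _ _).2 h
  · rw [← B0_inB]
    simpa using h
  · exact (B0_inB _ _ _ _).2 h

lemma evw_inB (r m : ℕ) (w : List Letter) (i : Fin r) (x : Pt r m) (h : InB r m i x) :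
    InB r m i (evw (A0 r m) (B0 r m) w x) := by
  induction w with
  | nil => simpa [evw] using h
  | cons s w ih =>
    have : evw (A0 r m) (B0 r m) (s :: w) = ev (A0 r m) (B0 r m) s * evw (A0 r m) (B0 r m) w := by
      simp [evw]
    rw [this, Perm.mul_apply]
    exact ev_inB _ _ _ _ _ ih

lemma tau_inB (r m : ℕ) (i : Fin r) (x : Pt r m) (h : InB r m i x) : tau r m x = x := by
  unfold tau
  apply Equiv.swap_apply_of_ne_of_ne
  · rintro rfl
    rcases h with h | ⟨z, h⟩
    · simp only [infp, Sum.inr.injEq, Fin.mk.injEq] at h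
      omega
    · simp at h
  · rintro rfl
    rcases h with h | ⟨z, h⟩
    · simp only [infp, Sum.inr.injEq, Fin.mk.injEq] at h
      omega
    · simp at h

lemma b_eq (r m : ℕ) (i : Fin r) (x : Pt r m) (h : InB r m i x) : b r m x = B0 r m x := by
  unfold b
  rw [Perm.mul_apply, tau_inB r m i x h]

lemma binv_eq (r m : ℕ) (i : Fin r) (x : Pt r m) (h : InB r m i x) :
    (b r m)⁻¹ x = (B0 r m)⁻¹ x := by
  have h1 : InB r m i ((B0 r m)⁻¹ x) := by
    rw [← B0_inB]
    simpa using h
  rw [Perm.inv_eq_iff_eq, b_eq r m i _ h1]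
  simp

lemma a_eq (r m : ℕ) (i : Fin r) (x : Pt r m) (h : InB r m i x) (hx : x ≠ infp r m i) :
    a r m x = A0 r m x := by
  rcases h with h | ⟨z, h⟩
  · exact absurd h hx
  · subst h
    simp [a, A0]

lemma ainv_eq (r m : ℕ) (i : Fin r) (x : Pt r m) (h : InB r m i x) (hx : x ≠ infp r m i) :
    (a r m)⁻¹ x = (A0 r m)⁻¹ x := by
  have h0 : A0 r m (infp r m i) = infp r m i := by simp [A0, infp]
  have h1 : InB r m i ((A0 r m)⁻¹ x) := by
    rw [← A0_inB]
    simpa using h
  have h2 : (A0 r m)⁻¹ x ≠ infp r m i := by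
    intro h3
    apply hx
    rw [← h0, ← h3]
    simp
  rw [Perm.inv_eq_iff_eq, a_eq r m i _ h1 h2]
  simp

/-- Number of `a`-letters at the head of the word (`0` or `1`). -/
def hd : List Letter → ℕ
  | [] => 0
  | s :: _ => if s.1 then 0 else 1

lemma hd_le (w : List Letter) : hd w ≤ 1 := by
  cases w with
  | nil => simp [hd]
  | cons s w => simp only [hd]; split_ifs <;> omega

theorem affected_aux (r m : ℕ) (w : List Letter) (i : Fin r) : ∃ E : Finset (Pt r m),
    2 * E.card ≤ w.length + hd w ∧
    (hd w = 1 → (evw (A0 r m) (B0 r m) w)⁻¹ (infp r m i) ∈ E) ∧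
    ∀ x, InB r m i x → x ∉ E → evw (a r m) (b r m) w x = evw (A0 r m) (B0 r m) w x := by
  classical
  induction w with
  | nil => exact ⟨∅, by simp [hd], by simp [hd], by simp [evw]⟩
  | cons s w ih =>
    obtain ⟨E, hE1, hE2, hE3⟩ := ih
    have e0 : evw (A0 r m) (B0 r m) (s :: w) = ev (A0 r m) (B0 r m) s * evw (A0 r m) (B0 r m) w := by
      simp [evw]
    have e1 : evw (a r m) (b r m) (s :: w) = ev (a r m) (b r m) s * evw (a r m) (b r m) w := by
      simp [evw]
    have hl := hd_le w
    by_cases hs : s.1
    · refine ⟨E, ?_, ?_, ?_⟩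
      · simp only [hd, hs, if_true, List.length_cons]
        omega
      · simp [hd, hs]
      · intro x hx hxE
        rw [e0, e1, Perm.mul_apply, Perm.mul_apply, hE3 x hx hxE]
        have hy := evw_inB r m w i x hx
        rcases s with ⟨_ | _, _ | _⟩ <;> simp only [Bool.false_eq_true] at hs <;>
          simp only [ev, if_true, Bool.false_eq_true, if_false]
        · exact binv_eq r m i _ hy
        · exact b_eq r m i _ hy
    · have hA : ∀ x : Pt r m, InB r m i x → x ≠ infp r m i →
          ev (a r m) (b r m) s x = ev (A0 r m) (B0 r m) s x := by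
        intro x hx hxi
        rcases s with ⟨_ | _, _ | _⟩ <;> simp only [not_true_eq_false] at hs <;>
          simp only [ev, if_true, Bool.false_eq_true, if_false]
        · exact ainv_eq r m i _ hx hxi
        · exact a_eq r m i _ hx hxi
      have hinf : (evw (A0 r m) (B0 r m) (s :: w))⁻¹ (infp r m i) =
          (evw (A0 r m) (B0 r m) w)⁻¹ (infp r m i) := by
        rw [e0, mul_inv_rev, Perm.mul_apply]
        congr 1
        have h0 : A0 r m (infp r m i) = infp r m i := by simp [A0, infp]
        rcases s with ⟨_ | _, _ | _⟩ <;> simp only [not_true_eq_false] at hs <;>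
          simp only [ev, if_true, Bool.false_eq_true, if_false]
        · rw [inv_inv, h0]
        · rw [Perm.inv_eq_iff_eq, h0]
      by_cases hw : hd w = 1
      · refine ⟨E, ?_, ?_, ?_⟩
        · simp only [hd, hs, List.length_cons]
          simp only [Bool.false_eq_true, if_false]
          omega
        · intro _
          rw [hinf]
          exact hE2 hw
        · intro x hx hxE
          rw [e0, e1, Perm.mul_apply, Perm.mul_apply, hE3 x hx hxE]
          apply hA _ (evw_inB r m w i x hx)
          intro h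
          apply hxE
          have := hE2 hw
          rwa [← h, Perm.inv_def, Equiv.symm_apply_apply] at this
      · refine ⟨insert ((evw (A0 r m) (B0 r m) w)⁻¹ (infp r m i)) E, ?_, ?_, ?_⟩
        · have := Finset.card_insert_le ((evw (A0 r m) (B0 r m) w)⁻¹ (infp r m i)) E
          simp only [hd, hs, List.length_cons]
          simp only [Bool.false_eq_true, if_false]
          omega
        · intro _
          rw [hinf]
          exact Finset.mem_insert_self _ _
        · intro x hx hxE
          rw [Finset.mem_insert, not_or] at hxE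
          rw [e0, e1, Perm.mul_apply, Perm.mul_apply, hE3 x hx hxE.2]
          apply hA _ (evw_inB r m w i x hx)
          intro h
          apply hxE.1
          rw [← h, Perm.inv_def, Equiv.symm_apply_apply]

/-- The words in the linked and unlinked generators differ in at most `(length + 1) / 2` points of each
projective line. -/
theorem affected (r m : ℕ) (w : List Letter) (i : Fin r) : ∃ E : Finset (Pt r m),
    2 * E.card ≤ w.length + 1 ∧
    ∀ x, InB r m i x → x ∉ E → evw (a r m) (b r m) w x = evw (A0 r m) (B0 r m) w x := by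
  obtain ⟨E, h1, -, h3⟩ := affected_aux r m w i
  have := hd_le w
  exact ⟨E, by omega, h3⟩

end Pool.Agent.K6.H2.GR
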