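import Mathlib
import Pool.Agent.K6.H2.GR.Defs

/-! # Homogeneous coordinates on the projective lines -/

open Equiv

namespace Pool.Agent.K6.H2.GR

/-- The point with homogeneous coordinates `(u : v)` on the `i`-th projective line. -/
noncomputable def pt (r m : ℕ) (i : Fin r) (u v : ZMod (pr i)) : Pt r m :=
  if v = 0 then .inr ⟨i, by omega⟩ else .inl ⟨i, u / v⟩

lemma A0_pt (r m : ℕ) (i : Fin r) (u v : ZMod (pr i)) :
    A0 r m (pt r m i u v) = pt r m i (u + 2 * v) v := by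
  unfold pt A0
  by_cases hv : v = 0
  · simp [hv]
  · simp only [hv, if_false, Equiv.sumCongr_apply, Sum.map_inl, Equiv.sigmaCongrRight_apply,
      Sigma.map, id, Equiv.coe_addRight]
    congr 2
    field_simp

lemma J_pt (r m : ℕ) (i : Fin r) (u v : ZMod (pr i)) (h : ¬ (u = 0 ∧ v = 0)) :
    J r m (pt r m i u v) = pt r m i v u := by
  unfold pt J
  simp only [Function.Involutive.coe_toPerm]
  by_cases hv : v = 0
  · have hu : u ≠ 0 := fun hu => h ⟨hu, hv⟩
    simp [hv, hu, Jf]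
  · by_cases hu : u = 0
    · simp [hv, hu, Jf]
    · have : u / v ≠ 0 := div_ne_zero hu hv
      simp [hv, hu, Jf]

lemma B0_pt (r m : ℕ) (i : Fin r) (u v : ZMod (pr i)) (h : ¬ (u = 0 ∧ v = 0)) :
    B0 r m (pt r m i u v) = pt r m i u (2 * u + v) := by
  unfold B0
  rw [Perm.mul_apply, Perm.mul_apply, J_pt r m i u v h, A0_pt, J_pt, add_comm]
  rintro ⟨h1, h2⟩
  subst h2
  simp only [mul_zero, add_zero] at h1
  exact h ⟨rfl, h1⟩

lemma ev_pt (r m : ℕ) (s : Letter) (i : Fin r) (u v : ZMod (pr i)) (h : ¬ (u = 0 ∧ v = 0)) :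
    ev (A0 r m) (B0 r m) s (pt r m i u v) =
      pt r m i ((mat s 0 0 : ZMod (pr i)) * u + (mat s 0 1 : ZMod (pr i)) * v)
        ((mat s 1 0 : ZMod (pr i)) * u + (mat s 1 1 : ZMod (pr i)) * v) := by
  rcases s with ⟨_ | _, _ | _⟩
  · simp only [ev, mat, Bool.false_eq_true, if_false]
    rw [Perm.inv_eq_iff_eq, A0_pt]
    simp
  · simp only [ev, mat, Bool.false_eq_true, if_false, if_true]
    rw [A0_pt]
    simp
  · simp only [ev, mat, Bool.false_eq_true, if_false, if_true]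
    rw [Perm.inv_eq_iff_eq, B0_pt]
    · simp
    · rintro ⟨h1, h2⟩
      simp at h1
      subst h1
      simp at h2
      exact h ⟨rfl, h2⟩
  · simp only [ev, mat, if_true]
    rw [B0_pt r m i u v h]
    simp

lemma mat_nondeg (p : ℕ) [Fact p.Prime] (s : Letter) (u v : ZMod p) (h : ¬ (u = 0 ∧ v = 0)) :
    ¬ ((mat s 0 0 : ZMod p) * u + (mat s 0 1 : ZMod p) * v = 0 ∧
      (mat s 1 0 : ZMod p) * u + (mat s 1 1 : ZMod p) * v = 0) := by
  rcases s with ⟨_ | _, _ | _⟩ <;> simp only [mat, Bool.false_eq_true, if_false, if_true] <;>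
    simp only [Matrix.of_apply, Matrix.cons_val', Matrix.cons_val_zero, Matrix.cons_val_one,
      Matrix.cons_val_fin_one] <;> push_cast <;> rintro ⟨h1, h2⟩
  · have hv : v = 0 := by simpa using h2
    subst hv
    exact h ⟨by simpa using h1, rfl⟩
  · have hv : v = 0 := by simpa using h2
    subst hv
    exact h ⟨by simpa using h1, rfl⟩
  · have hv : u = 0 := by simpa using h1
    subst hv
    exact h ⟨rfl, by simpa using h2⟩
  · have hv : u = 0 := by simpa using h1
    subst hv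
    exact h ⟨rfl, by simpa using h2⟩

theorem evw_pt_aux (r m : ℕ) (w : List Letter) (i : Fin r) (u v : ZMod (pr i))
    (h : ¬ (u = 0 ∧ v = 0)) :
    ¬ ((matw w 0 0 : ZMod (pr i)) * u + (matw w 0 1 : ZMod (pr i)) * v = 0 ∧
      (matw w 1 0 : ZMod (pr i)) * u + (matw w 1 1 : ZMod (pr i)) * v = 0) ∧
    evw (A0 r m) (B0 r m) w (pt r m i u v) =
      pt r m i ((matw w 0 0 : ZMod (pr i)) * u + (matw w 0 1 : ZMod (pr i)) * v)
        ((matw w 1 0 : ZMod (pr i)) * u + (matw w 1 1 : ZMod (pr i)) * v) := by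
  induction w with
  | nil => simpa [matw, evw] using h
  | cons s w ih =>
    obtain ⟨ih1, ih2⟩ := ih
    have e : ∀ k : Fin 2, (matw (s :: w) k 0 : ZMod (pr i)) * u +
        (matw (s :: w) k 1 : ZMod (pr i)) * v =
        (mat s k 0 : ZMod (pr i)) * ((matw w 0 0 : ZMod (pr i)) * u +
          (matw w 0 1 : ZMod (pr i)) * v) + (mat s k 1 : ZMod (pr i)) *
          ((matw w 1 0 : ZMod (pr i)) * u + (matw w 1 1 : ZMod (pr i)) * v) := by
      intro k
      have : matw (s :: w) = mat s * matw w := by simp [matw]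
      rw [this]
      simp only [Matrix.mul_apply, Fin.sum_univ_two]
      push_cast
      ring
    rw [e 0, e 1]
    refine ⟨mat_nondeg _ s _ _ ih1, ?_⟩
    have : evw (A0 r m) (B0 r m) (s :: w) = ev (A0 r m) (B0 r m) s * evw (A0 r m) (B0 r m) w := by
      simp [evw]
    rw [this, Perm.mul_apply, ih2, ev_pt _ _ _ _ _ _ ih1]

theorem evw_pt (r m : ℕ) (w : List Letter) (i : Fin r) (u v : ZMod (pr i))
    (h : ¬ (u = 0 ∧ v = 0)) :
    evw (A0 r m) (B0 r m) w (pt r m i u v) =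
      pt r m i ((matw w 0 0 : ZMod (pr i)) * u + (matw w 0 1 : ZMod (pr i)) * v)
        ((matw w 1 0 : ZMod (pr i)) * u + (matw w 1 1 : ZMod (pr i)) * v) :=
  (evw_pt_aux r m w i u v h).2

end Pool.Agent.K6.H2.GR
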