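import Mathlib
import Pool.Agent.K6.H2.GR.Defs

/-! # Statements of the pieces -/

open Equiv Filter Real

namespace Pool.Agent.K6.H2.GR

/-- MAT1: a nonempty reduced word has a matrix with an off-diagonal entry which is not zero. -/
def S_MAT1 : Prop := ∀ w : List Letter, w ≠ [] → Reduced w →
  matw w 0 1 ≠ 0 ∨ matw w 1 0 ≠ 0

/-- MAT2: growth of the entries. -/
def S_MAT2 : Prop := ∀ w : List Letter, ∀ i j : Fin 2,
  |(matw w i j : ℝ)| ≤ (1 + √2) ^ w.length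

/-- GEN: the two permutations generate the symmetric group. -/
def S_GEN : Prop := ∀ r m : ℕ, Subgroup.closure {a r m, b r m} = ⊤

/-- GIRTH: if there is no relation of length less than `L`, then the girth of the Cayley graph is at
least `L`. -/
def S_GIRTH : Prop := ∀ (G : Type) [Group G] (x y : G) (L : ℕ),
  (∀ w : List Letter, w ≠ [] → Reduced w → w.length < L → evw x y w ≠ 1) →
  (L : ℕ∞) ≤ (cay {x, y}).egirth

/-- DIV: a relation of the two permutations gives divisibilities. -/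
def S_DIV : Prop := ∀ (r m : ℕ) (w : List Letter), evw (a r m) (b r m) w = 1 →
  ∀ i : Fin r, w.length + 7 ≤ 2 * pr i →
    ((pr i : ℕ) : ℤ) ∣ matw w 0 1 ∧ ((pr i : ℕ) : ℤ) ∣ matw w 1 0

/-- NTA: sum of the primes up to `y` (prime number theorem, upper bound). -/
def S_NTA : Prop := ∀ ε : ℝ, 0 < ε → ∀ᶠ y : ℕ in atTop,
  ∑ p ∈ (Finset.range (y + 1)).filter Nat.Prime, ((p : ℝ) + 1) ≤ (1 / 2 + ε) * (y : ℝ) ^ 2 / log y

/-- NTB: the first odd prime which is not used for `Sym(n)` is large. -/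
def S_NTB : Prop := ∀ ε : ℝ, 0 < ε → ∀ᶠ n : ℕ in atTop,
  blocks (rk n) + 2 ≤ n ∧ (1 - ε) * √((n : ℝ) * log n) ≤ (pr (rk n) : ℝ)

/-- NTC: the product of the used primes is large. -/
def S_NTC : Prop := ∀ κ : ℝ, κ < 1 / (1 / 2 + log (1 + √2)) → ∀ᶠ n : ℕ in atTop,
  ∀ ℓ : ℕ, (ℓ : ℝ) < κ * √((n : ℝ) * log n) →
    (1 + √2) ^ ℓ < ∏ i ∈ (Finset.range (rk n)).filter (fun i => ℓ + 7 ≤ 2 * pr i), (pr i : ℝ)

end Pool.Agent.K6.H2.GR
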