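import Mathlib
import Pool.Agent.K6.H2.GR.Stm
import Pool.Agent.K6.H2.GR.PT
import Pool.Agent.K6.H2.GR.AFF

/-! # A relation of the two permutations gives divisibilities -/

open Equiv Polynomial

namespace Pool.Agent.K6.H2.GR

lemma quad_zero {F : Type*} [Field F] (c d e : F) (S : Finset F) (hS : 3 ≤ S.card)
    (h : ∀ z ∈ S, c * z ^ 2 + d * z + e = 0) : c = 0 ∧ e = 0 := by
  have hP0 : C c * X ^ 2 + C d * X + C e = (0 : F[X]) := by
    apply Polynomial.eq_zero_of_natDegree_lt_card_of_eval_eq_zero' _ S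
    · intro z hz
      simp only [eval_add, eval_mul, eval_C, eval_pow, eval_X]
      exact h z hz
    · have : (C c * X ^ 2 + C d * X + C e).natDegree ≤ 2 := natDegree_quadratic_le
      omega
  constructor
  · have := congrArg (fun Q => coeff Q 2) hP0
    simpa [coeff_X, coeff_C] using this
  · have := congrArg (fun Q => coeff Q 0) hP0
    simpa using this

theorem t_DIV : S_DIV := by
  classical
  intro r m w hw i hi
  obtain ⟨E, hE1, hE2⟩ := affected r m w i
  set W := matw w with hW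
  set F : Finset (ZMod (pr i)) := Finset.univ.filter fun z => (Sum.inl ⟨i, z⟩ : Pt r m) ∉ E with hF
  have hcard : 3 ≤ F.card := by
    have h1 : (Finset.univ.filter fun z : ZMod (pr i) => (Sum.inl ⟨i, z⟩ : Pt r m) ∈ E).card ≤
        E.card := by
      refine Finset.card_le_card_of_injOn (fun z => (Sum.inl ⟨i, z⟩ : Pt r m)) ?_ ?_
      · intro z hz
        simpa using hz
      · intro z _ z' _ h
        simpa using h
    have h2 := Finset.card_filter_add_card_filter_not (s := (Finset.univ : Finset (ZMod (pr i))))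
      (fun z => (Sum.inl ⟨i, z⟩ : Pt r m) ∈ E)
    rw [Finset.card_univ, ZMod.card] at h2
    have h3 : F.card = (Finset.univ.filter fun z : ZMod (pr i) =>
        ¬ (Sum.inl ⟨i, z⟩ : Pt r m) ∈ E).card := rfl
    omega
  have hroot : ∀ z ∈ F, ((W 1 0 : ZMod (pr i))) * z ^ 2 + ((W 1 1 : ZMod (pr i)) -
      (W 0 0 : ZMod (pr i))) * z - (W 0 1 : ZMod (pr i)) = 0 := by
    intro z hz
    have hzE : (Sum.inl ⟨i, z⟩ : Pt r m) ∉ E := by simpa [hF] using hz
    have h1 := hE2 (.inl ⟨i, z⟩) (Or.inr ⟨z, rfl⟩) hzE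
    rw [hw] at h1
    have h2 : (Sum.inl ⟨i, z⟩ : Pt r m) = pt r m i z 1 := by simp [pt]
    have h3 := evw_pt r m w i z 1 (by simp)
    rw [← h2, ← h1] at h3
    simp only [Perm.coe_one, id_eq, mul_one] at h3
    unfold pt at h3
    split_ifs at h3 with h4
    simp only [Sum.inl.injEq, Sigma.mk.injEq, heq_eq_eq, true_and] at h3
    have h5 : z * ((W 1 0 : ZMod (pr i)) * z + (W 1 1 : ZMod (pr i))) =
        (W 0 0 : ZMod (pr i)) * z + (W 0 1 : ZMod (pr i)) := (eq_div_iff h4).1 h3
    linear_combination h5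
  obtain ⟨c2, c0⟩ := quad_zero (W 1 0 : ZMod (pr i)) ((W 1 1 : ZMod (pr i)) -
      (W 0 0 : ZMod (pr i))) (-(W 0 1 : ZMod (pr i))) F hcard (fun z hz => by
        linear_combination hroot z hz)
  rw [neg_eq_zero] at c0
  exact ⟨(ZMod.intCast_zmod_eq_zero_iff_dvd _ _).1 c0, (ZMod.intCast_zmod_eq_zero_iff_dvd _ _).1 c2⟩

end Pool.Agent.K6.H2.GR
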