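import Mathlib
import Pool.Agent.K6.H2.GR.Stm

/-! # Piece GEN -/

open Equiv

namespace Pool.Agent.K6.H2.GR

namespace GEN

variable (r m : ℕ)

lemma two_ne (i : ℕ) : (2 : ZMod (pr i)) ≠ 0 := by
  intro h
  have h1 : ((2 : ℕ) : ZMod (pr i)) = 0 := by exact_mod_cast h
  rw [ZMod.natCast_eq_zero_iff] at h1
  have h2 : pr i = 2 := (Nat.prime_dvd_prime_iff_eq (pr_prime i) Nat.prime_two).1 h1
  have h3 : Nat.nth Nat.Prime 0 < pr i :=
    Nat.nth_strictMono Nat.infinite_setOfPred_prime (Nat.succ_pos i)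
  rw [Nat.nth_prime_zero_eq_two] at h3
  omega

lemma pr_odd (i : ℕ) : Odd (pr i) := by
  rcases (pr_prime i).eq_two_or_odd' with h | h
  · have h3 : Nat.nth Nat.Prime 0 < pr i :=
      Nat.nth_strictMono Nat.infinite_setOfPred_prime (Nat.succ_pos i)
    rw [Nat.nth_prime_zero_eq_two] at h3
    omega
  · exact h

lemma A0_inl (i : Fin r) (z : ZMod (pr i)) :
    A0 r m (.inl ⟨i, z⟩) = .inl ⟨i, z + 2⟩ := rfl

lemma A0_inr (j : Fin (r + m + 2)) : A0 r m (.inr j) = .inr j := rfl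

lemma a_inl (i : Fin r) (z : ZMod (pr i)) :
    a r m (.inl ⟨i, z⟩) = .inl ⟨i, z + 2⟩ := rfl

lemma a_inr (j : Fin (r + m + 2)) : a r m (.inr j) = .inr (finRotate _ j) := rfl

lemma J_apply (x : Pt r m) : J r m x = Jf r m x := rfl

lemma J_mul_J : J r m * J r m = 1 := by
  ext1 x
  exact Jf_inv r m x

lemma A0_pow_inl (k : ℕ) (i : Fin r) (z : ZMod (pr i)) :
    (A0 r m ^ k) (.inl ⟨i, z⟩) = .inl ⟨i, z + 2 * k⟩ := by
  induction k generalizing z with
  | zero => simp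
  | succ k ih =>
    rw [pow_succ, Perm.mul_apply, A0_inl, ih]
    have e : z + 2 + 2 * (k : ZMod (pr i)) = z + 2 * ((k + 1 : ℕ) : ZMod (pr i)) := by
      push_cast
      ring
    rw [e]

lemma A0_pow_inr (k : ℕ) (j : Fin (r + m + 2)) :
    (A0 r m ^ k) (.inr j) = .inr j := by
  induction k with
  | zero => simp
  | succ k ih =>
    rw [pow_succ, Perm.mul_apply, A0_inr, ih]

lemma B0_pow (k : ℕ) : B0 r m ^ k = J r m * A0 r m ^ k * J r m := by
  induction k with
  | zero => simp [J_mul_J]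
  | succ k ih =>
    rw [pow_succ, ih, B0, pow_succ]
    calc J r m * A0 r m ^ k * J r m * (J r m * A0 r m * J r m)
        = J r m * A0 r m ^ k * (J r m * J r m) * A0 r m * J r m := by group
      _ = _ := by rw [J_mul_J]; group

/-- product of the primes. -/
noncomputable def N : ℕ := ∏ i : Fin r, pr i

lemma A0_pow_N : A0 r m ^ (N r) = 1 := by
  ext1 x
  rcases x with ⟨i, z⟩ | j
  · rw [A0_pow_inl]
    have h : ((N r : ℕ) : ZMod (pr i)) = 0 := by
      rw [ZMod.natCast_eq_zero_iff]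
      exact Finset.dvd_prod_of_mem (fun i : Fin r => pr i) (Finset.mem_univ i)
    simp [h]
  · rw [A0_pow_inr]; rfl

lemma B0_pow_N : B0 r m ^ (N r) = 1 := by
  rw [B0_pow, A0_pow_N, mul_one, J_mul_J]

lemma N_odd : Odd (N r) := by
  rw [N]
  apply Finset.prod_induction _ Odd (fun a b ha hb => ha.mul hb) odd_one
  intro i _
  exact pr_odd i

lemma J_inr_ge (j : Fin (r + m + 2)) (h : r ≤ (j : ℕ)) : J r m (.inr j) = .inr j := by
  rw [J_apply, Jf, dif_neg (by omega)]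

lemma J_inr_lt (j : Fin (r + m + 2)) (h : (j : ℕ) < r) :
    J r m (.inr j) = .inl ⟨⟨j, h⟩, 0⟩ := by
  rw [J_apply, Jf, dif_pos h]

lemma J_inl (i : Fin r) (z : ZMod (pr i)) (h : z ≠ 0) :
    J r m (.inl ⟨i, z⟩) = .inl ⟨i, z⁻¹⟩ := by
  rw [J_apply, Jf, if_neg h]

lemma B0_pow_inr_ge (k : ℕ) (j : Fin (r + m + 2)) (h : r ≤ (j : ℕ)) :
    (B0 r m ^ k) (.inr j) = .inr j := by
  rw [B0_pow, Perm.mul_apply, Perm.mul_apply, J_inr_ge r m j h, A0_pow_inr, J_inr_ge r m j h]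

lemma B0_inr_ge (j : Fin (r + m + 2)) (h : r ≤ (j : ℕ)) :
    (B0 r m) (.inr j) = .inr j := by
  simpa using B0_pow_inr_ge r m 1 j h

lemma B0_pow_inr_lt (k : ℕ) (j : Fin (r + m + 2)) (h : (j : ℕ) < r)
    (hk : (2 * k : ZMod (pr j)) ≠ 0) :
    (B0 r m ^ k) (.inr j) = .inl ⟨⟨j, h⟩, (2 * k : ZMod (pr j))⁻¹⟩ := by
  rw [B0_pow, Perm.mul_apply, Perm.mul_apply, J_inr_lt r m j h, A0_pow_inl, zero_add]
  rw [J_inl r m ⟨j, h⟩ _ hk]

lemma commute : Commute (B0 r m) (tau r m) := by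
  have h := Equiv.swap_apply_apply (B0 r m) (.inr ⟨r + m, by omega⟩) (.inr ⟨r + m + 1, by omega⟩)
  rw [B0_inr_ge r m _ (by simp), B0_inr_ge r m _ (by simp; omega)] at h
  change tau r m = B0 r m * tau r m * (B0 r m)⁻¹ at h
  rw [Commute, SemiconjBy]
  exact (eq_mul_inv_iff_mul_eq.1 h).symm

lemma tau_sq : tau r m * tau r m = 1 := Equiv.swap_mul_self _ _

lemma tau_pow_N : tau r m ^ (N r) = tau r m := by
  obtain ⟨k, hk⟩ := N_odd r
  rw [hk, pow_succ, pow_mul, pow_two, tau_sq, one_pow, one_mul]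

lemma b_pow_N : b r m ^ (N r) = tau r m := by
  rw [b, (commute r m).mul_pow, B0_pow_N, tau_pow_N, one_mul]

/-- the group. -/
abbrev G : Subgroup (Perm (Pt r m)) := Subgroup.closure {a r m, b r m}

lemma a_mem : a r m ∈ G r m := Subgroup.subset_closure (by simp)

lemma b_mem : b r m ∈ G r m := Subgroup.subset_closure (by simp)

lemma tau_mem : tau r m ∈ G r m := by
  rw [← b_pow_N]
  exact Subgroup.pow_mem _ (b_mem r m) _

lemma B0_mem : B0 r m ∈ G r m := by
  have : B0 r m = b r m * tau r m := by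
    rw [b, mul_assoc, tau_sq, mul_one]
  rw [this]
  exact Subgroup.mul_mem _ (b_mem r m) (tau_mem r m)

/-- The relation: the transposition is in the group. -/
def R (u v : Pt r m) : Prop := Equiv.swap u v ∈ G r m

lemma R_refl (u : Pt r m) : R r m u u := by
  rw [R, Equiv.swap_self]
  exact Subgroup.one_mem _

lemma R_symm {u v : Pt r m} (h : R r m u v) : R r m v u := by
  rw [R, Equiv.swap_comm]
  exact h

lemma R_trans {u v w : Pt r m} (h : R r m u v) (h' : R r m v w) : R r m u w :=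
  SubmonoidClass.swap_mem_trans (G r m) h h'

lemma R_map {u v : Pt r m} (h : R r m u v) {g : Perm (Pt r m)} (hg : g ∈ G r m) :
    R r m (g u) (g v) := by
  rw [R, Equiv.swap_apply_apply]
  exact Subgroup.mul_mem _ (Subgroup.mul_mem _ hg h) (Subgroup.inv_mem _ hg)

lemma R_map_iff {u v : Pt r m} {g : Perm (Pt r m)} (hg : g ∈ G r m)
    (h : R r m (g u) (g v)) : R r m u v := by
  have := R_map r m h (Subgroup.inv_mem _ hg)
  simpa using this

lemma a_num (j : ℕ) (h : j + 1 < r + m + 2) :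
    a r m (.inr ⟨j, by omega⟩) = .inr ⟨j + 1, h⟩ := by
  rw [a_inr]
  congr 1
  exact finRotate_of_lt (by omega)

lemma R_num_aux (k : ℕ) : ∀ (h : k ≤ r + m),
    R r m (.inr ⟨r + m - k, by omega⟩) (.inr ⟨r + m - k + 1, by omega⟩) := by
  induction k with
  | zero =>
    intro h
    exact tau_mem r m
  | succ k ih =>
    intro h
    have h1 := ih (by omega)
    apply R_map_iff r m (a_mem r m)
    rw [a_num r m (r + m - (k + 1)) (by omega), a_num r m (r + m - (k + 1) + 1) (by omega)]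
    have e1 : r + m - (k + 1) + 1 = r + m - k := by omega
    simpa [e1] using h1

lemma R_num_succ (j : ℕ) (h : j + 1 < r + m + 2) :
    R r m (.inr ⟨j, by omega⟩) (.inr ⟨j + 1, h⟩) := by
  have h1 := R_num_aux r m (r + m - j) (by omega)
  have e : r + m - (r + m - j) = j := by omega
  simpa [e] using h1

lemma R_num (j : ℕ) : ∀ (h : j < r + m + 2),
    R r m (.inr ⟨j, h⟩) (.inr ⟨0, by omega⟩) := by
  induction j with
  | zero => intro h; exact R_refl r m _
  | succ j ih =>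
    intro h
    exact R_trans r m (R_symm r m (R_num_succ r m j h)) (ih (by omega))

lemma R_num' (j j' : Fin (r + m + 2)) : R r m (.inr j) (.inr j') :=
  R_trans r m (R_num r m j j.2) (R_symm r m (R_num r m j' j'.2))

lemma R_inl_ne (i : Fin r) (z : ZMod (pr i)) (hz : z ≠ 0) :
    R r m (.inl ⟨i, z⟩) (.inr ⟨0, by omega⟩) := by
  have h2 := two_ne i
  set k : ℕ := ((2 : ZMod (pr i))⁻¹ * z⁻¹).val with hk
  have e : (2 * (k : ZMod (pr i))) = z⁻¹ := by
    rw [hk, ZMod.natCast_val, ZMod.cast_id]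
    rw [← mul_assoc, mul_inv_cancel₀ h2, one_mul]
  have e1 := B0_pow_inr_lt r m k ⟨(i : ℕ), by omega⟩ i.2
    (by change (2 * (k : ZMod (pr i))) ≠ 0; rw [e]; exact inv_ne_zero hz)
  have e2 := B0_pow_inr_ge r m k ⟨r + m, by omega⟩ (by simp)
  have h := R_map r m (R_num' r m ⟨(i : ℕ), by omega⟩ ⟨r + m, by omega⟩)
    (Subgroup.pow_mem _ (B0_mem r m) k)
  rw [e1, e2] at h
  have e3 : (.inl ⟨⟨(i : ℕ), i.2⟩, (2 * (k : ZMod (pr i)))⁻¹⟩ : Pt r m) = .inl ⟨i, z⟩ := by
    rw [e, inv_inv]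
  have h' : R r m (.inl ⟨⟨(i : ℕ), i.2⟩, (2 * (k : ZMod (pr i)))⁻¹⟩)
    (.inr ⟨r + m, by omega⟩) := h
  rw [e3] at h'
  exact R_trans r m h' (R_num' r m _ _)

lemma R_all (x : Pt r m) : R r m x (.inr ⟨0, by omega⟩) := by
  rcases x with ⟨i, z⟩ | j
  · by_cases hz : z = 0
    · subst hz
      have h2 := two_ne i
      have h := R_map r m (R_inl_ne r m i (-2) (neg_ne_zero.2 h2)) (a_mem r m)
      rw [a_inl, a_inr] at h
      have e : (-2 + 2 : ZMod (pr i)) = 0 := by ring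
      rw [e] at h
      exact R_trans r m h (R_num' r m _ _)
    · exact R_inl_ne r m i z hz
  · exact R_num r m j j.2

end GEN

theorem t_GEN : S_GEN := by
  intro r m
  rw [eq_top_iff, ← Equiv.Perm.closure_isSwap, Subgroup.closure_le]
  rintro σ ⟨x, y, hxy, rfl⟩
  exact GEN.R_trans r m (GEN.R_all r m x) (GEN.R_symm r m (GEN.R_all r m y))

end Pool.Agent.K6.H2.GR
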