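import Pool.Agent.K6.H2.GR.Stm

/-!
# Piece GIRTH (helper84): short cycles of the Cayley graph give short relations
-/

set_option autoImplicit false

open Equiv Filter Real

namespace Pool.Agent.K6.H2.GR

namespace GIRTH

variable {G : Type} [Group G] {x y : G}

theorem exists_letter {g h : G} (hadj : (cay {x, y}).Adj g h) : ∃ s : Letter, h = g * ev x y s := by
  unfold cay at hadj
  rw [SimpleGraph.fromRel_adj] at hadj
  obtain ⟨-, ⟨z, hz, e⟩ | ⟨z, hz, e⟩⟩ := hadj
  · rw [Set.mem_insert_iff, Set.mem_singleton_iff] at hz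
    rcases hz with rfl | rfl
    · exact ⟨(false, true), by simpa [ev] using e⟩
    · exact ⟨(true, true), by simpa [ev] using e⟩
  · rw [Set.mem_insert_iff, Set.mem_singleton_iff] at hz
    rcases hz with rfl | rfl
    · exact ⟨(false, false), by simp [ev, e]⟩
    · exact ⟨(true, false), by simp [ev, e]⟩

theorem ev_cancel {s t : Letter} (h1 : s.1 = t.1) (h2 : s.2 ≠ t.2) : ev x y s * ev x y t = 1 := by
  obtain ⟨s1, s2⟩ := s
  obtain ⟨t1, t2⟩ := t
  simp only at h1 h2
  subst h1
  cases s1 <;> cases s2 <;> cases t2 <;> simp_all [ev]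

theorem path_word {u v : G} (p : (cay {x, y}).Walk u v) (hp : p.IsPath) :
    ∃ w : List Letter, Reduced w ∧ w.length = p.length ∧ v = u * evw x y w ∧
      ∀ t ∈ w.head?, s(u, u * ev x y t) ∈ p.edges := by
  induction p with
  | nil => exact ⟨[], by simp [Reduced], rfl, by simp [evw], by simp⟩
  | @cons u v v' h p ih =>
    rw [SimpleGraph.Walk.cons_isPath_iff] at hp
    obtain ⟨w, hw1, hw2, hw3, hw4⟩ := ih hp.1
    obtain ⟨s, hs⟩ := exists_letter h
    refine ⟨s :: w, ?_, ?_, ?_, ?_⟩
    · unfold Reduced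
      rw [List.isChain_cons]
      refine ⟨fun t ht hst => ?_, hw1⟩
      have h5 := hw4 t ht
      have h6 : v * ev x y t = u := by
        rw [hs, mul_assoc, ev_cancel hst.1 hst.2, mul_one]
      rw [h6] at h5
      exact hp.2 (SimpleGraph.Walk.snd_mem_support_of_mem_edges _ h5)
    · rw [List.length_cons, hw2, SimpleGraph.Walk.length_cons]
    · rw [hw3, hs]
      simp [evw, mul_assoc]
    · intro t ht
      rw [List.head?_cons, Option.mem_some_iff] at ht
      subst ht
      rw [SimpleGraph.Walk.edges_cons, List.mem_cons]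
      left
      rw [hs]

end GIRTH

open GIRTH in
theorem t_GIRTH : S_GIRTH := by
  intro G _ x y L hL
  rw [SimpleGraph.le_egirth]
  intro a c hc
  by_contra hlt
  rw [not_le, Nat.cast_lt] at hlt
  cases c with
  | nil => exact absurd hc (by simp)
  | @cons _ v _ h p =>
    rw [SimpleGraph.Walk.cons_isCycle_iff] at hc
    obtain ⟨w, hw1, hw2, hw3, hw4⟩ := path_word p hc.1
    obtain ⟨s, hs⟩ := exists_letter h
    refine hL (s :: w) (List.cons_ne_nil _ _) ?_ ?_ ?_
    · unfold Reduced
      rw [List.isChain_cons]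
      refine ⟨fun t ht hst => ?_, hw1⟩
      have h5 := hw4 t ht
      have h6 : v * ev x y t = a := by
        rw [hs, mul_assoc, ev_cancel hst.1 hst.2, mul_one]
      rw [h6, Sym2.eq_swap] at h5
      exact hc.2 h5
    · rw [List.length_cons, hw2]
      rw [SimpleGraph.Walk.length_cons] at hlt
      exact hlt
    · have h7 : a * evw x y (s :: w) = a := by
        have : evw x y (s :: w) = ev x y s * evw x y w := by simp [evw]
        rw [this, ← mul_assoc, ← hs, ← hw3]
      exact mul_left_cancel (h7.trans (mul_one a).symm)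

end Pool.Agent.K6.H2.GR
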