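import Pool.Agent.K6.H2.GR.Stm

/-!
# Piece MAT1 (helper84): ping-pong for Sanov's matrices
-/

set_option autoImplicit false

open Equiv Filter Real

namespace Pool.Agent.K6.H2.GR

namespace MAT1

/-- the sign of a letter -/
def sg (s : Letter) : ℤ := if s.2 then 1 else -1

/-- the cone of a letter -/
def Inv (s : Letter) (x y : ℤ) : Prop :=
  0 < sg s * x * y ∧ (if s.1 then x ^ 2 < y ^ 2 else y ^ 2 < x ^ 2)

theorem sg_sq (s : Letter) : sg s ^ 2 = 1 := by
  unfold sg
  split_ifs <;> norm_num

theorem matw_cons (s : Letter) (w : List Letter) : matw (s :: w) = mat s * matw w := by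
  simp [matw]

theorem mat_mul (s : Letter) (M : Matrix (Fin 2) (Fin 2) ℤ) (c : Fin 2) :
    (mat s * M) 0 c = (if s.1 then M 0 c else M 0 c + 2 * sg s * M 1 c) ∧
    (mat s * M) 1 c = (if s.1 then M 1 c + 2 * sg s * M 0 c else M 1 c) := by
  obtain ⟨s1, s2⟩ := s
  cases s1 <;> cases s2 <;> simp [mat, sg, Matrix.mul_apply, Fin.sum_univ_two] <;> ring

/-- the algebraic step -/
theorem step_same {e x y : ℤ} (he : e ^ 2 = 1) (h : 0 < e * x * y) (h2 : y ^ 2 < x ^ 2) :
    0 < e * (x + 2 * e * y) * y ∧ y ^ 2 < (x + 2 * e * y) ^ 2 := by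
  have e1 : e * (x + 2 * e * y) * y = e * x * y + 2 * (e ^ 2) * y ^ 2 := by ring
  have e2 : (x + 2 * e * y) ^ 2 = x ^ 2 + 4 * (e * x * y) + 4 * (e ^ 2) * y ^ 2 := by ring
  rw [e1, e2, he]
  constructor
  · nlinarith [sq_nonneg y]
  · nlinarith [sq_nonneg y]

theorem step_other {e x y : ℤ} (he : e ^ 2 = 1) (h2 : x ^ 2 < y ^ 2) :
    0 < e * (x + 2 * e * y) * y ∧ y ^ 2 < (x + 2 * e * y) ^ 2 := by
  have e1 : e * (x + 2 * e * y) * y = e * x * y + 2 * (e ^ 2) * y ^ 2 := by ring
  have hu : x ^ 2 < (e * y) ^ 2 := by rw [mul_pow, he, one_mul]; exact h2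
  constructor
  · rw [e1, he]
    nlinarith [sq_nonneg (x + e * y), sq_nonneg x]
  · have e3 : (x + 2 * e * y) ^ 2 - (e * y) ^ 2 = (x + e * y) * (x + 3 * (e * y)) := by ring
    have e4 : (e * y) ^ 2 = y ^ 2 := by rw [mul_pow, he, one_mul]
    have h3 : 0 < (x + e * y) * (x + 3 * (e * y)) := by
      have h4 := abs_lt_of_sq_lt_sq' (a := x) (b := |e * y|) (by rw [sq_abs]; exact hu) (abs_nonneg _)
      rcases le_total 0 (e * y) with h5 | h5
      · rw [abs_of_nonneg h5] at h4
        apply mul_pos <;> linarith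
      · rw [abs_of_nonpos h5] at h4
        apply mul_pos_of_neg_of_neg <;> linarith
    rw [← e3, e4] at h3
    linarith

theorem key (w : List Letter) : ∀ s : Letter, Reduced (s :: w) →
    ∃ c : Fin 2, Inv s (matw (s :: w) 0 c) (matw (s :: w) 1 c) := by
  induction w with
  | nil =>
    intro s _
    obtain ⟨s1, s2⟩ := s
    cases s1
    · refine ⟨1, ?_⟩
      cases s2 <;> simp [Inv, matw, mat, sg]
    · refine ⟨0, ?_⟩
      cases s2 <;> simp [Inv, matw, mat, sg]
  | cons t w ih =>
    intro s hs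
    unfold Reduced at hs
    rw [List.isChain_cons_cons] at hs
    obtain ⟨c, hc1, hc2⟩ := ih t hs.2
    refine ⟨c, ?_⟩
    obtain ⟨m1, m2⟩ := mat_mul s (matw (t :: w)) c
    rw [matw_cons s (t :: w)]
    unfold Inv
    rw [m1, m2]
    generalize matw (t :: w) 0 c = x at *
    generalize matw (t :: w) 1 c = y at *
    have hst : s.1 = t.1 → sg s = sg t := by
      intro h
      by_contra h2
      refine hs.1 ⟨h, fun h3 => h2 ?_⟩
      unfold sg
      rw [h3]
    by_cases h1 : s.1 = true
    · rw [if_pos h1, if_pos h1, if_pos h1]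
      by_cases h2 : t.1 = true
      · rw [if_pos h2] at hc2
        rw [← hst (by rw [h1, h2])] at hc1
        have := step_same (e := sg s) (x := y) (y := x) (sg_sq s) (by linarith [hc1, mul_comm x y, mul_assoc (sg s) x y, mul_assoc (sg s) y x]) hc2
        refine ⟨?_, this.2⟩
        have h3 := this.1
        have e : sg s * x * (y + 2 * sg s * x) = sg s * (y + 2 * sg s * x) * x := by ring
        rw [e]
        exact h3
      · rw [if_neg h2] at hc2
        have := step_other (e := sg s) (x := y) (y := x) (sg_sq s) hc2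
        refine ⟨?_, this.2⟩
        have h3 := this.1
        have e : sg s * x * (y + 2 * sg s * x) = sg s * (y + 2 * sg s * x) * x := by ring
        rw [e]
        exact h3
    · rw [if_neg h1, if_neg h1, if_neg h1]
      by_cases h2 : t.1 = true
      · rw [if_pos h2] at hc2
        exact step_other (e := sg s) (x := x) (y := y) (sg_sq s) hc2
      · rw [if_neg h2] at hc2
        have h3 : s.1 = t.1 := by
          rw [Bool.eq_false_iff.mpr h1, Bool.eq_false_iff.mpr h2]
        rw [← hst h3] at hc1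
        exact step_same (e := sg s) (x := x) (y := y) (sg_sq s) hc1 hc2

end MAT1

open MAT1 in
theorem t_MAT1 : S_MAT1 := by
  intro w hw hr
  obtain ⟨s, w', rfl⟩ := List.exists_cons_of_ne_nil hw
  obtain ⟨c, hc, -⟩ := key w' s hr
  have hx : matw (s :: w') 0 c ≠ 0 := by
    intro h
    rw [h] at hc
    simp at hc
  have hy : matw (s :: w') 1 c ≠ 0 := by
    intro h
    rw [h] at hc
    simp at hc
  fin_cases c
  · right
    exact hy
  · left
    exact hx

end Pool.Agent.K6.H2.GR
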