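import Pool.Agent.K6.H2.GR.Stm

/-! # MAT2: growth of the entries -/

set_option autoImplicit false

open Real

namespace Pool.Agent.K6.H2.GR

namespace MAT2

theorem step (x y e s : ℝ) (hs : s ^ 2 = 2) (he : e ^ 2 = 1) :
    (x + 2 * e * y) ^ 2 + y ^ 2 + 2 * (1 + s) * (x - e * (s - 1) * y) ^ 2 =
      (1 + s) ^ 2 * (x ^ 2 + y ^ 2) := by
  linear_combination (-x ^ 2 - 4 * e * x * y + (2 * s - 3) * y ^ 2) * hs +
    (4 + 2 * (s - 1) * (s ^ 2 - 1)) * y ^ 2 * he

theorem step_le (x y e s : ℝ) (hs : s ^ 2 = 2) (hs0 : 0 ≤ s) (he : e ^ 2 = 1) :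
    (x + 2 * e * y) ^ 2 + y ^ 2 ≤ (1 + s) ^ 2 * (x ^ 2 + y ^ 2) := by
  rw [← step x y e s hs he]
  have h : 0 ≤ 2 * (1 + s) * (x - e * (s - 1) * y) ^ 2 := by positivity
  linarith

theorem matw_cons (s : Letter) (w : List Letter) : matw (s :: w) = mat s * matw w := by
  simp [matw]

theorem col (w : List Letter) (j : Fin 2) :
    (matw w 0 j : ℝ) ^ 2 + (matw w 1 j : ℝ) ^ 2 ≤ ((1 + √2) ^ 2) ^ w.length := by
  have hs : (√2 : ℝ) ^ 2 = 2 := Real.sq_sqrt (by norm_num)
  have hs0 : (0 : ℝ) ≤ √2 := Real.sqrt_nonneg 2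
  induction w with
  | nil =>
    have h : matw [] = 1 := rfl
    rw [h]
    fin_cases j <;> simp [Matrix.one_apply]
  | cons s w ih =>
    rw [List.length_cons, pow_succ' ((1 + √2) ^ 2) w.length, matw_cons]
    obtain ⟨s1, s2⟩ := s
    refine le_trans ?_ (mul_le_mul_of_nonneg_left ih (by positivity))
    rcases s1 with _ | _ <;> rcases s2 with _ | _
    · have h := step_le (matw w 0 j) (matw w 1 j) (-1) (√2) hs hs0 (by norm_num)
      have e0 : (mat (false, false) * matw w) 0 j = matw w 0 j + 2 * (-1) * matw w 1 j := by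
        simp [mat, Matrix.mul_apply, Fin.sum_univ_two]
      have e1 : (mat (false, false) * matw w) 1 j = matw w 1 j := by
        simp [mat, Matrix.mul_apply, Fin.sum_univ_two]
      rw [e0, e1]
      push_cast
      norm_num at h ⊢
      exact h
    · have h := step_le (matw w 0 j) (matw w 1 j) 1 (√2) hs hs0 (by norm_num)
      have e0 : (mat (false, true) * matw w) 0 j = matw w 0 j + 2 * 1 * matw w 1 j := by
        simp [mat, Matrix.mul_apply, Fin.sum_univ_two]
      have e1 : (mat (false, true) * matw w) 1 j = matw w 1 j := by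
        simp [mat, Matrix.mul_apply, Fin.sum_univ_two]
      rw [e0, e1]
      push_cast
      norm_num at h ⊢
      exact h
    · have h := step_le (matw w 1 j) (matw w 0 j) (-1) (√2) hs hs0 (by norm_num)
      have e0 : (mat (true, false) * matw w) 0 j = matw w 0 j := by
        simp [mat, Matrix.mul_apply, Fin.sum_univ_two]
      have e1 : (mat (true, false) * matw w) 1 j = matw w 1 j + 2 * (-1) * matw w 0 j := by
        simp [mat, Matrix.mul_apply, Fin.sum_univ_two]
        ring
      rw [e0, e1, add_comm ((matw w 0 j : ℝ) ^ 2) ((matw w 1 j : ℝ) ^ 2), add_comm]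
      push_cast
      norm_num at h ⊢
      exact h
    · have h := step_le (matw w 1 j) (matw w 0 j) 1 (√2) hs hs0 (by norm_num)
      have e0 : (mat (true, true) * matw w) 0 j = matw w 0 j := by
        simp [mat, Matrix.mul_apply, Fin.sum_univ_two]
      have e1 : (mat (true, true) * matw w) 1 j = matw w 1 j + 2 * 1 * matw w 0 j := by
        simp [mat, Matrix.mul_apply, Fin.sum_univ_two]
        ring
      rw [e0, e1, add_comm ((matw w 0 j : ℝ) ^ 2) ((matw w 1 j : ℝ) ^ 2), add_comm]
      push_cast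
      norm_num at h ⊢
      exact h

end MAT2

theorem t_MAT2 : S_MAT2 := by
  intro w i j
  have h := MAT2.col w j
  have hle : (matw w i j : ℝ) ^ 2 ≤ ((1 + √2) ^ w.length) ^ 2 := by
    rw [← pow_mul, mul_comm, pow_mul]
    fin_cases i
    · exact le_trans (le_add_of_nonneg_right (sq_nonneg _)) h
    · exact le_trans (le_add_of_nonneg_left (sq_nonneg _)) h
  exact abs_le_of_sq_le_sq hle (by positivity)

end Pool.Agent.K6.H2.GR
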