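import Mathlib
import Pool.Agent.K6.H2.GR.Stm

/-! # Assembly -/

open Equiv Filter Real

namespace Pool.Agent.K6.H2.GR

lemma pr_strictMono : StrictMono pr := fun i j h =>
  Nat.nth_strictMono Nat.infinite_setOfPred_prime (by omega)

lemma card_Pt (r m : ℕ) : Fintype.card (Pt r m) = blocks r + m + 2 := by
  simp only [Fintype.card_sum, Fintype.card_sigma, ZMod.card, Fintype.card_fin, blocks,
    Finset.sum_add_distrib, Finset.sum_const, Finset.card_range, smul_eq_mul, mul_one]
  rw [Finset.sum_range]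
  omega

/-- No short relations. -/
lemma no_relation (h1 : S_MAT1) (h2 : S_MAT2) (hD : S_DIV) (r m : ℕ) (w : List Letter) (hw : w ≠ [])
    (hr : Reduced w)
    (hP : (1 + √2) ^ w.length <
      ∏ i ∈ (Finset.range r).filter (fun i => w.length + 7 ≤ 2 * pr i), (pr i : ℝ)) :
    evw (a r m) (b r m) w ≠ 1 := by
  intro he
  have key : ∀ z : ℤ, z ≠ 0 → |(z : ℝ)| ≤ (1 + √2) ^ w.length →
      (∀ i : Fin r, w.length + 7 ≤ 2 * pr i → ((pr i : ℕ) : ℤ) ∣ z) → False := by
    intro z hz hb hd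
    have hdvd : ∏ i ∈ (Finset.range r).filter (fun i => w.length + 7 ≤ 2 * pr i), (pr i) ∣
        z.natAbs := by
      apply Finset.prod_dvd_of_isRelPrime
      · intro i _ j _ hij
        exact Nat.coprime_iff_isRelPrime.1 ((Nat.coprime_primes (pr_prime i) (pr_prime j)).2
          (pr_strictMono.injective.ne hij))
      · intro i hi
        rw [Finset.mem_filter, Finset.mem_range] at hi
        exact Int.natCast_dvd.1 (hd ⟨i, hi.1⟩ hi.2)
    have hle := Nat.le_of_dvd (Int.natAbs_pos.2 hz) hdvd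
    have : (∏ i ∈ (Finset.range r).filter (fun i => w.length + 7 ≤ 2 * pr i), (pr i : ℝ)) ≤
        |(z : ℝ)| := by
      rw [← Int.cast_abs, Int.abs_eq_natAbs]
      exact_mod_cast hle
    linarith
  rcases h1 w hw hr with h | h
  · exact key _ h (h2 w 0 1) fun i hi => (hD r m w he i hi).1
  · exact key _ h (h2 w 1 0) fun i hi => (hD r m w he i hi).2

/-- The number of further points for `Sym(n)`, minus two. -/
noncomputable def mm (n : ℕ) : ℕ := n - blocks (rk n) - 2

theorem main (h1 : S_MAT1) (h2 : S_MAT2) (hD : S_DIV) (hG : S_GEN) (hC : S_GIRTH) (hB : S_NTB)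
    (hP : S_NTC) (κ : ℝ) (hκ : κ < 1 / (1 / 2 + log (1 + √2))) : ∀ᶠ n : ℕ in atTop,
    Fintype.card (Pt (rk n) (mm n)) = n ∧
    Subgroup.closure {a (rk n) (mm n), b (rk n) (mm n)} = ⊤ ∧
    (⌈κ * √((n : ℝ) * log n)⌉₊ : ℕ∞) ≤ (cay {a (rk n) (mm n), b (rk n) (mm n)}).egirth := by
  filter_upwards [hB 1 one_pos, hP κ hκ] with n hn1 hn2
  refine ⟨?_, hG _ _, ?_⟩
  · rw [card_Pt]
    have := hn1.1
    unfold mm
    omega
  · apply hC
    intro w hw hr hlt
    apply no_relation h1 h2 hD _ _ _ hw hr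
    apply hn2
    exact Nat.lt_ceil.1 hlt

end Pool.Agent.K6.H2.GR
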