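import Pool.Agent.K6.H2.GR.Stm
import Pool.Agent.Cov.PNT

/-! # The sum of the primes up to `y` (piece NTA) -/

set_option autoImplicit false
set_option linter.unusedVariables false

open Finset Filter Real

namespace Pool.Agent.K6.H2.GR

theorem nta_card (y : ℕ) :
    Nat.primeCounting y = ((range (y + 1)).filter Nat.Prime).card := by
  rw [Nat.primeCounting, Nat.primeCounting', Nat.count_eq_card_filter_range]

theorem nta_gt (y m : ℕ) (hm : m < y) :
    ((((range (y + 1)).filter Nat.Prime).filter fun p => m < p).card : ℝ) =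
      (Nat.primeCounting y : ℝ) - (Nat.primeCounting m : ℝ) := by
  have h1 := Finset.card_filter_add_card_filter_not (s := (range (y + 1)).filter Nat.Prime)
    (fun p => m < p)
  have h2 : ((range (y + 1)).filter Nat.Prime).filter (fun p => ¬ m < p) =
      (range (m + 1)).filter Nat.Prime := by
    ext p
    simp only [mem_filter, mem_range]
    constructor
    · rintro ⟨⟨h3, h4⟩, h5⟩
      exact ⟨by omega, h4⟩
    · rintro ⟨h3, h4⟩
      exact ⟨⟨by omega, h4⟩, by omega⟩
  rw [h2, ← nta_card, ← nta_card] at h1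
  rw [← h1]
  push_cast
  ring

theorem nta_sum (y : ℕ) :
    ∑ p ∈ (range (y + 1)).filter Nat.Prime, (p : ℝ) =
      y * (Nat.primeCounting y : ℝ) - ∑ m ∈ range y, (Nat.primeCounting m : ℝ) := by
  have h1 : ∀ p ∈ (range (y + 1)).filter Nat.Prime,
      (p : ℝ) = ∑ m ∈ range y, if m < p then (1 : ℝ) else 0 := by
    intro p hp
    rw [mem_filter, mem_range] at hp
    rw [← Finset.sum_filter]
    have h2 : (range y).filter (fun m => m < p) = range p := by
      ext m
      simp only [mem_filter, mem_range]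
      omega
    rw [h2]
    simp
  rw [Finset.sum_congr rfl h1, Finset.sum_comm]
  have h3 : ∀ m ∈ range y, (∑ p ∈ (range (y + 1)).filter Nat.Prime,
      if m < p then (1 : ℝ) else 0) =
      (Nat.primeCounting y : ℝ) - (Nat.primeCounting m : ℝ) := by
    intro m hm
    rw [← nta_gt y m (mem_range.1 hm), ← Finset.sum_filter]
    simp
  rw [Finset.sum_congr rfl h3, Finset.sum_sub_distrib]
  simp

theorem nta_tri (m y : ℕ) (h : m ≤ y) :
    ∑ i ∈ Ico m y, (i : ℝ) = ((y : ℝ) * (y - 1) - m * (m - 1)) / 2 := by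
  induction y, h using Nat.le_induction with
  | base => simp
  | succ y hy ih =>
    rw [Finset.sum_Ico_succ_top hy, ih]
    push_cast
    ring

theorem t_NTA : S_NTA := by
  intro ε hε
  obtain ⟨δ, hδ⟩ : ∃ δ : ℝ, δ = min (ε / 3) 1 := ⟨_, rfl⟩
  have hδ0 : 0 < δ := by
    rw [hδ]
    exact lt_min (by linarith) one_pos
  have hδ1 : δ ≤ 1 := by
    rw [hδ]
    exact min_le_right _ _
  have hδε : δ ≤ ε / 3 := by
    rw [hδ]
    exact min_le_left _ _
  have hT : Tendsto (fun n : ℕ => (Nat.primeCounting n : ℝ) * Real.log n / n) atTop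
      (nhds 1) := by
    have h := Pool.Agent.Cov.PNT.pi_tendsto.comp (tendsto_natCast_atTop_atTop (R := ℝ))
    refine h.congr fun n => ?_
    simp [Function.comp]
  have hE : ∀ᶠ n : ℕ in atTop, 1 - δ ≤ (Nat.primeCounting n : ℝ) * Real.log n / n ∧
      (Nat.primeCounting n : ℝ) * Real.log n / n ≤ 1 + δ := by
    have h1 := hT.eventually (lt_mem_nhds (show (1 - δ) < 1 by linarith))
    have h2 := hT.eventually (gt_mem_nhds (show 1 < 1 + δ by linarith))
    filter_upwards [h1, h2] with n a1 a2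
    exact ⟨a1.le, a2.le⟩
  obtain ⟨m₀, hm₀⟩ := eventually_atTop.1 hE
  obtain ⟨m, hm⟩ : ∃ m : ℕ, m = max m₀ 2 := ⟨_, rfl⟩
  have hm2 : 2 ≤ m := by
    rw [hm]
    exact le_max_right _ _
  have hmm : m₀ ≤ m := by
    rw [hm]
    exact le_max_left _ _
  filter_upwards [eventually_ge_atTop (max (m ^ 2) (⌈8 / ε⌉₊))] with y hy
  have hy1 : m ^ 2 ≤ y := le_trans (le_max_left _ _) hy
  have hy3 : ⌈8 / ε⌉₊ ≤ y := le_trans (le_max_right _ _) hy
  have hy2 : 8 / ε ≤ (y : ℝ) := le_trans (Nat.le_ceil _) (Nat.cast_le.2 hy3)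
  have hym : m ≤ y := le_trans (by nlinarith) hy1
  have hy0 : (0 : ℝ) < y := by
    have : 0 < y := by omega
    exact_mod_cast this
  have hlog : 0 < Real.log y := Real.log_pos (by
    have : 1 < y := by omega
    exact_mod_cast this)
  have hup : (Nat.primeCounting y : ℝ) ≤ (1 + δ) * y / Real.log y := by
    have := (hm₀ y (by omega)).2
    rw [div_le_iff₀ hy0] at this
    rw [le_div_iff₀ hlog]
    exact this
  have hlow : ∀ i ∈ Ico m y, (1 - δ) * i / Real.log y ≤ (Nat.primeCounting i : ℝ) := by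
    intro i hi
    rw [mem_Ico] at hi
    have hi0 : (0 : ℝ) < i := by
      have : 0 < i := by omega
      exact_mod_cast this
    have h1 := (hm₀ i (by omega)).1
    rw [le_div_iff₀ hi0] at h1
    rw [div_le_iff₀ hlog]
    refine h1.trans ?_
    refine mul_le_mul_of_nonneg_left ?_ (Nat.cast_nonneg _)
    exact Real.log_le_log hi0 (by exact_mod_cast hi.2.le)
  have hS : (1 - δ) * (((y : ℝ) * (y - 1) - m * (m - 1)) / 2) / Real.log y ≤
      ∑ i ∈ range y, (Nat.primeCounting i : ℝ) := by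
    rw [← nta_tri m y hym, Finset.mul_sum, Finset.sum_div]
    refine (Finset.sum_le_sum hlow).trans ?_
    refine Finset.sum_le_sum_of_subset_of_nonneg ?_ fun i _ _ => Nat.cast_nonneg _
    intro i hi
    rw [mem_Ico] at hi
    exact mem_range.2 hi.2
  have h1 : ∑ p ∈ (range (y + 1)).filter Nat.Prime, ((p : ℝ) + 1) =
      y * (Nat.primeCounting y : ℝ) - ∑ m ∈ range y, (Nat.primeCounting m : ℝ) +
        (Nat.primeCounting y : ℝ) := by
    rw [Finset.sum_add_distrib, nta_sum]
    congr 1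
    rw [nta_card]
    simp
  rw [h1]
  have hup2 : ((y : ℝ) + 1) * (Nat.primeCounting y : ℝ) ≤
      ((y : ℝ) + 1) * ((1 + δ) * y / Real.log y) :=
    mul_le_mul_of_nonneg_left hup (by linarith)
  have key : ((y : ℝ) + 1) * ((1 + δ) * y / Real.log y) -
      (1 - δ) * (((y : ℝ) * (y - 1) - m * (m - 1)) / 2) / Real.log y ≤
      (1 / 2 + ε) * (y : ℝ) ^ 2 / Real.log y := by
    rw [← mul_div_assoc, ← sub_div]
    refine div_le_div_of_nonneg_right ?_ hlog.le
    have hm3 : ((m : ℝ)) ^ 2 ≤ y := by exact_mod_cast hy1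
    have hm4 : (2 : ℝ) ≤ m := by exact_mod_cast hm2
    have h8 : 8 ≤ ε * y := by
      rw [div_le_iff₀ hε] at hy2
      linarith
    have h9 : 8 * (y : ℝ) ≤ ε * y ^ 2 := by nlinarith
    have h10 : δ * (y : ℝ) ^ 2 ≤ ε / 3 * y ^ 2 :=
      mul_le_mul_of_nonneg_right hδε (by positivity)
    have h11 : δ * (y : ℝ) ≤ 1 * y := mul_le_mul_of_nonneg_right hδ1 hy0.le
    have h12 : (1 - δ) * ((m : ℝ) * (m - 1)) ≤ 1 * (m : ℝ) ^ 2 := by
      have h13 : (m : ℝ) * (m - 1) ≤ m ^ 2 := by nlinarith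
      have h14 : 0 ≤ (m : ℝ) * (m - 1) := by nlinarith
      nlinarith
    nlinarith
  linarith

end Pool.Agent.K6.H2.GR
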