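import Mathlib
import Pool.Agent.K6.H2.GR.Stm

/-! # NTB: the first odd prime which is not used is large -/

open Equiv Filter Real

namespace Pool.Agent.K6.H2.GR

lemma pr_strictMono : StrictMono pr := by
  intro i j h
  unfold pr
  exact Nat.nth_strictMono Nat.infinite_setOfPred_prime (by omega)

lemma three_le_pr (i : ℕ) : 3 ≤ pr i := by
  have h0 : pr 0 = 3 := by
    unfold pr
    exact Nat.nth_prime_one_eq_three
  rw [← h0]
  exact pr_strictMono.monotone (Nat.zero_le i)

lemma four_mul_le_blocks (r : ℕ) : 4 * r ≤ blocks r := by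
  unfold blocks
  calc 4 * r = ∑ _i ∈ Finset.range r, 4 := by simp [mul_comm]
    _ ≤ _ := Finset.sum_le_sum fun i _ => by
      have := three_le_pr i
      omega

lemma blocks_rk (n : ℕ) (hn : 2 ≤ n) : blocks (rk n) + 2 ≤ n := by
  unfold rk
  exact Nat.findGreatest_spec (P := fun r => blocks r + 2 ≤ n) (m := 0) (Nat.zero_le n)
    (by simpa [blocks] using hn)

lemma lt_blocks_rk (n : ℕ) (hn : 2 ≤ n) : n < blocks (rk n + 1) + 2 := by
  have h1 := blocks_rk n hn
  have h2 := four_mul_le_blocks (rk n)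
  have h3 : ¬ (blocks (rk n + 1) + 2 ≤ n) :=
    Nat.findGreatest_is_greatest (P := fun r => blocks r + 2 ≤ n) (n := n)
      (k := rk n + 1) (by unfold rk; omega) (by omega)
  omega

lemma blocks_succ_le (R : ℕ) :
    ((blocks (R + 1) : ℕ) : ℝ) ≤
      ∑ p ∈ (Finset.range (pr R + 1)).filter Nat.Prime, ((p : ℝ) + 1) := by
  unfold blocks
  push_cast
  have him : ∑ p ∈ (Finset.range (R + 1)).image pr, ((p : ℝ) + 1) =
      ∑ i ∈ Finset.range (R + 1), ((pr i : ℝ) + 1) :=
    Finset.sum_image (pr_strictMono.injective.injOn)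
  rw [← him]
  refine Finset.sum_le_sum_of_subset_of_nonneg ?_ (fun _ _ _ => by positivity)
  intro p hp
  simp only [Finset.mem_image, Finset.mem_range] at hp
  obtain ⟨i, hi, rfl⟩ := hp
  simp only [Finset.mem_filter, Finset.mem_range]
  exact ⟨Nat.lt_succ_of_le (pr_strictMono.monotone (by omega)), pr_prime i⟩

lemma rk_tendsto : Tendsto rk atTop atTop := by
  rw [tendsto_atTop]
  intro R
  filter_upwards [eventually_ge_atTop (blocks R + 2)] with n hn
  have h2 := four_mul_le_blocks R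
  unfold rk
  exact Nat.le_findGreatest (by omega) hn

lemma y_tendsto : Tendsto (fun n => pr (rk n)) atTop atTop :=
  pr_strictMono.tendsto_atTop.comp rk_tendsto

theorem t_NTB (hA : S_NTA) : S_NTB := by
  intro ε hε
  rcases le_or_gt 1 ε with h1 | h1
  · filter_upwards [eventually_ge_atTop 2] with n hn
    refine ⟨blocks_rk n hn, ?_⟩
    have : (1 - ε) * √((n : ℝ) * log n) ≤ 0 :=
      mul_nonpos_of_nonpos_of_nonneg (by linarith) (Real.sqrt_nonneg _)
    exact this.trans (by positivity)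
  · have he : 0 < ε / 4 := by positivity
    have hy1 := y_tendsto.eventually (hA (ε / 4) he)
    have hy2 := y_tendsto.eventually (eventually_ge_atTop (max 3 ⌈2 / (ε / 4)⌉₊))
    filter_upwards [eventually_ge_atTop 2, hy1, hy2] with n hn h2 h3
    refine ⟨blocks_rk n hn, ?_⟩
    set y : ℕ := pr (rk n) with hy
    have h4 : (n : ℝ) < (blocks (rk n + 1) : ℝ) + 2 := by exact_mod_cast lt_blocks_rk n hn
    have h5 := blocks_succ_le (rk n)
    rw [← hy] at h5
    have hy3 : (3 : ℝ) ≤ y := by exact_mod_cast (le_max_left _ _).trans h3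
    have hye : 2 / (ε / 4) ≤ (y : ℝ) :=
      (Nat.le_ceil _).trans (by exact_mod_cast (le_max_right _ _).trans h3)
    have hlog1 : 1 ≤ log (y : ℝ) := by
      rw [Real.le_log_iff_exp_le (by linarith)]
      exact (Real.exp_one_lt_d9.le.trans (by norm_num)).trans hy3
    have hlogy : log (y : ℝ) ≤ y := (Real.log_le_sub_one_of_pos (by linarith)).trans (by linarith)
    have hlpos : 0 < log (y : ℝ) := by linarith
    have hdiv : (y : ℝ) ≤ (y : ℝ) ^ 2 / log y := by
      rw [le_div_iff₀ hlpos]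
      nlinarith
    have h6 : 2 ≤ (ε / 4) * ((y : ℝ) ^ 2 / log y) := by
      rw [div_le_iff₀ he] at hye
      nlinarith
    have h7 : (n : ℝ) ≤ (1 / 2 + 2 * (ε / 4)) * ((y : ℝ) ^ 2 / log y) := by
      have : (1 / 2 + ε / 4) * (y : ℝ) ^ 2 / log y = (1 / 2 + ε / 4) * ((y : ℝ) ^ 2 / log y) := by
        ring
      rw [this] at h2
      nlinarith
    have hn0 : (0 : ℝ) < n := by
      have : (2 : ℝ) ≤ n := by exact_mod_cast hn
      linarith
    have h8 : (n : ℝ) ≤ (y : ℝ) ^ 2 := by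
      have h9 : (y : ℝ) ^ 2 / log y ≤ (y : ℝ) ^ 2 := div_le_self (by positivity) hlog1
      have h10 : 0 ≤ (y : ℝ) ^ 2 / log y := by positivity
      nlinarith
    have h9 : log (n : ℝ) ≤ 2 * log y := by
      calc log (n : ℝ) ≤ log ((y : ℝ) ^ 2) := Real.log_le_log hn0 h8
        _ = 2 * log y := by rw [Real.log_pow]; push_cast; ring
    have hlogn : 0 ≤ log (n : ℝ) := Real.log_nonneg (by
      have : (2 : ℝ) ≤ n := by exact_mod_cast hn
      linarith)
    have h10 : (n : ℝ) * log n ≤ (1 + ε) * (y : ℝ) ^ 2 := by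
      calc (n : ℝ) * log n ≤ n * (2 * log y) := by gcongr
        _ ≤ ((1 / 2 + 2 * (ε / 4)) * ((y : ℝ) ^ 2 / log y)) * (2 * log y) := by gcongr
        _ = (1 + ε) * (y : ℝ) ^ 2 := by
          field_simp
          ring
    have h11 : (1 - ε) ^ 2 * ((n : ℝ) * log n) ≤ (y : ℝ) ^ 2 := by
      calc (1 - ε) ^ 2 * ((n : ℝ) * log n) ≤ (1 - ε) ^ 2 * ((1 + ε) * (y : ℝ) ^ 2) := by gcongr
        _ = ((1 - ε) * (1 - ε ^ 2)) * (y : ℝ) ^ 2 := by ring
        _ ≤ 1 * (y : ℝ) ^ 2 := by
          gcongr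
          nlinarith [sq_nonneg ε]
        _ = _ := one_mul _
    calc (1 - ε) * √((n : ℝ) * log n) = √((1 - ε) ^ 2 * ((n : ℝ) * log n)) := by
          rw [Real.sqrt_mul (sq_nonneg _), Real.sqrt_sq (by linarith)]
      _ ≤ √((y : ℝ) ^ 2) := Real.sqrt_le_sqrt h11
      _ = y := Real.sqrt_sq (by positivity)

end Pool.Agent.K6.H2.GR
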