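import Mathlib
import Pool.Agent.K6.H2.GR.Stm
import Pool.Agent.K6.H2.GR.NTB
import Pool.Agent.Cov.PNT

/-! # NTC: the product of the used primes is large -/

open Equiv Filter Real

namespace Pool.Agent.K6.H2.GR

/-- `θ(x) ≤ (1 + δ) x + C`. -/
lemma theta_upper (δ : ℝ) (hδ : 0 < δ) :
    ∃ C : ℝ, 0 ≤ C ∧ ∀ x : ℝ, 0 ≤ x → Chebyshev.theta x ≤ (1 + δ) * x + C := by
  have h1 : ∀ᶠ x : ℝ in atTop, Chebyshev.theta x / x < 1 + δ :=
    Pool.Agent.Cov.PNT.theta_div_tendsto.eventually_lt_const (by linarith)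
  obtain ⟨X, hX⟩ := eventually_atTop.mp h1
  refine ⟨Chebyshev.theta (max X 1), Chebyshev.theta_nonneg _, fun x hx => ?_⟩
  rcases le_or_gt (max X 1) x with h | h
  · have h2 := hX x ((le_max_left _ _).trans h)
    have hx1 : (1 : ℝ) ≤ x := (le_max_right _ _).trans h
    rw [div_lt_iff₀ (by linarith)] at h2
    linarith [Chebyshev.theta_nonneg (max X 1)]
  · have h2 : Chebyshev.theta x ≤ Chebyshev.theta (max X 1) := Chebyshev.theta_mono h.le
    nlinarith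

/-- `θ(y - 1) ≥ (1 - δ) (y - 1)`. -/
lemma theta_lower (δ : ℝ) (hδ : 0 < δ) :
    ∀ᶠ y : ℕ in atTop, (1 - δ) * ((y : ℝ) - 1) ≤ Chebyshev.theta ((y : ℝ) - 1) := by
  have h1 : ∀ᶠ x : ℝ in atTop, 1 - δ < Chebyshev.theta x / x :=
    Pool.Agent.Cov.PNT.theta_div_tendsto.eventually_const_lt (by linarith)
  have h2 : Tendsto (fun y : ℕ => (y : ℝ) - 1) atTop atTop :=
    tendsto_atTop_add_const_right _ _ tendsto_natCast_atTop_atTop
  filter_upwards [h2.eventually h1, h2.eventually_ge_atTop 1] with y hy hy1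
  rw [lt_div_iff₀ (by linarith)] at hy
  exact hy.le

lemma exists_pr_of_odd_prime {p : ℕ} (hp : p.Prime) (h2 : p ≠ 2) : ∃ i, pr i = p := by
  obtain ⟨k, hk⟩ := Nat.exists_lt_card_nth_eq (p := Nat.Prime) hp
  have hk0 : k ≠ 0 := by
    rintro rfl
    rw [Nat.nth_prime_zero_eq_two] at hk
    exact h2 hk.2.symm
  refine ⟨k - 1, ?_⟩
  unfold pr
  rw [Nat.sub_add_cancel (Nat.one_le_iff_ne_zero.mpr hk0)]
  exact hk.2

lemma theta_le_sum (n ℓ : ℕ) :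
    Chebyshev.theta ((pr (rk n) : ℝ) - 1) - log 2 - Chebyshev.theta (((ℓ : ℝ) + 7) / 2) ≤
      ∑ i ∈ (Finset.range (rk n)).filter (fun i => ℓ + 7 ≤ 2 * pr i), log (pr i : ℝ) := by
  set y := pr (rk n) with hy
  have him : ∑ p ∈ ((Finset.range (rk n)).filter (fun i => ℓ + 7 ≤ 2 * pr i)).image pr,
      log (p : ℝ) = ∑ i ∈ (Finset.range (rk n)).filter (fun i => ℓ + 7 ≤ 2 * pr i),
      log (pr i : ℝ) :=
    Finset.sum_image (pr_strictMono.injective.injOn)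
  rw [← him]
  have hy1 : 1 ≤ y := (pr_prime _).one_lt.le
  have hfl : ⌊(y : ℝ) - 1⌋₊ = y - 1 := by
    rw [show (y : ℝ) - 1 = ((y - 1 : ℕ) : ℝ) by rw [Nat.cast_sub hy1]; simp]
    exact Nat.floor_natCast _
  set T := ((Finset.range (rk n)).filter (fun i => ℓ + 7 ≤ 2 * pr i)).image pr with hT
  have hsub : (Finset.Ioc 0 ⌊(y : ℝ) - 1⌋₊).filter Nat.Prime ⊆
      (T ∪ {2}) ∪ (Finset.Ioc 0 ⌊((ℓ : ℝ) + 7) / 2⌋₊).filter Nat.Prime := by
    intro p hp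
    rw [hfl] at hp
    simp only [Finset.mem_filter, Finset.mem_Ioc] at hp
    obtain ⟨⟨hp0, hpy⟩, hpp⟩ := hp
    simp only [Finset.mem_union, Finset.mem_singleton, Finset.mem_filter, Finset.mem_Ioc, hT,
      Finset.mem_image, Finset.mem_range]
    by_cases h2 : p = 2
    · exact Or.inl (Or.inr h2)
    · obtain ⟨i, rfl⟩ := exists_pr_of_odd_prime hpp h2
      by_cases h3 : ℓ + 7 ≤ 2 * pr i
      · refine Or.inl (Or.inl ⟨i, ⟨?_, h3⟩, rfl⟩)
        rw [← pr_strictMono.lt_iff_lt]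
        omega
      · refine Or.inr ⟨⟨hp0, ?_⟩, hpp⟩
        rw [Nat.le_floor_iff (by positivity), le_div_iff₀ (by norm_num)]
        have : 2 * pr i ≤ ℓ + 7 := by omega
        have h4 : (2 : ℝ) * (pr i : ℝ) ≤ (ℓ : ℝ) + 7 := by exact_mod_cast this
        linarith
  have hnn : ∀ p : ℕ, 0 ≤ log (p : ℝ) := fun p => Real.log_natCast_nonneg p
  have h1 : Chebyshev.theta ((y : ℝ) - 1) ≤
      ∑ p ∈ (T ∪ {2}) ∪ (Finset.Ioc 0 ⌊((ℓ : ℝ) + 7) / 2⌋₊).filter Nat.Prime, log (p : ℝ) := by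
    unfold Chebyshev.theta
    exact Finset.sum_le_sum_of_subset_of_nonneg hsub fun p _ _ => hnn p
  have hun : ∀ A B : Finset ℕ, ∑ p ∈ A ∪ B, log (p : ℝ) ≤ ∑ p ∈ A, log (p : ℝ) +
      ∑ p ∈ B, log (p : ℝ) := by
    intro A B
    rw [← Finset.sum_union_inter]
    linarith [Finset.sum_nonneg (s := A ∩ B) (f := fun p : ℕ => log (p : ℝ)) fun p _ => hnn p]
  have h2 := hun (T ∪ {2}) ((Finset.Ioc 0 ⌊((ℓ : ℝ) + 7) / 2⌋₊).filter Nat.Prime)
  have h3 := hun T {2}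
  simp only [Finset.sum_singleton] at h3
  have h4 : Chebyshev.theta (((ℓ : ℝ) + 7) / 2) =
      ∑ p ∈ (Finset.Ioc 0 ⌊((ℓ : ℝ) + 7) / 2⌋₊).filter Nat.Prime, log (p : ℝ) := rfl
  rw [← h4] at h2
  push_cast at h3
  linarith

theorem t_NTC (hB : S_NTB) : S_NTC := by
  intro κ hκ
  set lam : ℝ := log (1 + √2) with hlam
  have hs2 : 0 < √(2 : ℝ) := Real.sqrt_pos.mpr (by norm_num)
  have hlam0 : 0 < lam := Real.log_pos (by linarith)
  rcases le_or_gt κ 0 with hκ0 | hκ0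
  · refine Eventually.of_forall fun n ℓ hℓ => ?_
    exfalso
    have h1 : κ * √((n : ℝ) * log n) ≤ 0 :=
      mul_nonpos_of_nonpos_of_nonneg hκ0 (Real.sqrt_nonneg _)
    have h2 : (0 : ℝ) ≤ ℓ := by positivity
    linarith
  have hden : 0 < 1 / 2 + lam := by linarith
  have hgap : 0 < 1 - κ * (1 / 2 + lam) := by
    rw [lt_div_iff₀ hden] at hκ
    linarith
  set g : ℝ := 1 - κ * (1 / 2 + lam) with hg
  set δ : ℝ := min (1 / 2) (g / (2 * (2 + κ / 2))) with hδdef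
  have hk2 : 0 < 2 * (2 + κ / 2) := by positivity
  have hδ : 0 < δ := lt_min (by norm_num) (div_pos hgap hk2)
  have hδ2 : δ ≤ 1 / 2 := min_le_left _ _
  have hδ3 : δ * (2 + κ / 2) ≤ g / 2 := by
    have : δ ≤ g / (2 * (2 + κ / 2)) := min_le_right _ _
    rw [le_div_iff₀ hk2] at this
    linarith
  have hc : g / 2 ≤ (1 - δ) ^ 2 - κ * ((1 + δ) / 2 + lam) := by
    have : (1 - δ) ^ 2 - κ * ((1 + δ) / 2 + lam) = g - δ * (2 + κ / 2) + δ ^ 2 := by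
      rw [hg]; ring
    rw [this]
    nlinarith [sq_nonneg δ]
  obtain ⟨C, hC0, hC⟩ := theta_upper δ hδ
  -- S → ∞
  have hS : Tendsto (fun n : ℕ => √((n : ℝ) * log n)) atTop atTop := by
    refine Real.tendsto_sqrt_atTop.comp ?_
    exact Tendsto.atTop_mul_atTop₀ tendsto_natCast_atTop_atTop
      (Real.tendsto_log_atTop.comp tendsto_natCast_atTop_atTop)
  set C2 : ℝ := (1 - δ) + log 2 + (1 + δ) * (7 / 2) + C with hC2
  filter_upwards [hB δ hδ, y_tendsto.eventually (theta_lower δ hδ),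
    hS.eventually_gt_atTop (C2 / (g / 2))] with n h1 h2 h3 ℓ hℓ
  set S : ℝ := √((n : ℝ) * log n) with hSdef
  have hS0 : 0 ≤ S := Real.sqrt_nonneg _
  have h4 := theta_le_sum n ℓ
  have h5 := hC (((ℓ : ℝ) + 7) / 2) (by positivity)
  have h6 := h1.2
  rw [div_lt_iff₀ (by positivity)] at h3
  have h7 : (1 - δ) * ((1 - δ) * S) ≤ (1 - δ) * (pr (rk n) : ℝ) :=
    mul_le_mul_of_nonneg_left h6 (by linarith)
  have h8 : (ℓ : ℝ) * ((1 + δ) / 2 + lam) ≤ κ * S * ((1 + δ) / 2 + lam) :=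
    mul_le_mul_of_nonneg_right hℓ.le (by positivity)
  have h9 : (g / 2) * S ≤ ((1 - δ) ^ 2 - κ * ((1 + δ) / 2 + lam)) * S :=
    mul_le_mul_of_nonneg_right hc hS0
  have hmain : (ℓ : ℝ) * lam <
      ∑ i ∈ (Finset.range (rk n)).filter (fun i => ℓ + 7 ≤ 2 * pr i), log (pr i : ℝ) := by
    nlinarith
  have hprod : (∏ i ∈ (Finset.range (rk n)).filter (fun i => ℓ + 7 ≤ 2 * pr i), (pr i : ℝ)) =
      exp (∑ i ∈ (Finset.range (rk n)).filter (fun i => ℓ + 7 ≤ 2 * pr i), log (pr i : ℝ)) := by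
    rw [Real.exp_sum]
    refine Finset.prod_congr rfl fun i _ => ?_
    rw [Real.exp_log]
    exact_mod_cast (pr_prime i).pos
  have hpow : (1 + √2 : ℝ) ^ ℓ = exp ((ℓ : ℝ) * lam) := by
    rw [mul_comm, Real.exp_mul, hlam, Real.exp_log (by positivity), Real.rpow_natCast]
  rw [hprod, hpow]
  exact Real.exp_lt_exp.mpr hmain

end Pool.Agent.K6.H2.GR
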